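import Mathlib
import Pool.Agent.H357Z.FDC.Defs
import Pool.Agent.H357Z.FDC.Grig

set_option autoImplicit false

open Pool.Agent.H357Z.FDC

/-- Sanity check: permutations satisfying the defining recursion exist (and are unique, by
`IsGrigGens.unique`). -/
theorem Pool.Agent.Results.MP_bba340_al.ANoWeakFDC.gens_exist :
    ∃ a b c d : Equiv.Perm (ℕ → Bool), IsGrigGens a b c d := ⟨_, _, _, _, isGrigGens⟩

/-- The first Grigorchuk group, with the word metric of any finite generating set, lies in none of
the decomposition classes: for `A = {1}` it has no finite decomposition complexity, and for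
`A` the set of all `n ≥ 1` it has no weak finite decomposition complexity. -/
theorem Pool.Agent.Results.MP_bba340_al.ANoWeakFDC.result :
    ∀ (a b c d : Equiv.Perm (ℕ → Bool)), IsGrigGens a b c d →
      ∀ S : Finset (Subgroup.closure ({a, b, c, d} : Set (Equiv.Perm (ℕ → Bool)))),
        Subgroup.closure (S : Set (Subgroup.closure
          ({a, b, c, d} : Set (Equiv.Perm (ℕ → Bool))))) = ⊤ →
        ∀ A : Set ℕ, ¬ DecClass A (wordDist S) {Set.univ} :=
  grig_main
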